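import Mathlib

/-! Packing games with an arbitrary turn order and an arbitrary monotone goal: deleting the first
turn lowers the game number by at most one. -/

set_option autoImplicit false

namespace Pool.Agent.Results.MP_d2c770_co.TurnOrders

open Function

variable {V : Type*} [DecidableEq V]

/-- Alice can force a win in the packing game with goal `F`, palette `Fin k` and turn order `τ`
(turn `n` is Alice's if `τ n = true` and Bob's if `τ n = false`) from the position `s`
(`none` = uncoloured) before turn `n`. She wins if in the end each colour class is in `F`. -/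
inductive Win (F : Set V → Prop) (k : ℕ) (τ : ℕ → Bool) : ℕ → (V → Option (Fin k)) → Prop
  | done (n : ℕ) (s : V → Option (Fin k)) : (∀ v, s v ≠ none) →
      (∀ c, F {v | s v = some c}) → Win F k τ n s
  | alice (n : ℕ) (s : V → Option (Fin k)) (v : V) (c : Fin k) : τ n = true → s v = none →
      Win F k τ (n + 1) (update s v (some c)) → Win F k τ n s
  | bob (n : ℕ) (s : V → Option (Fin k)) : τ n = false → (∃ v, s v = none) →
      (∀ v c, s v = none → Win F k τ (n + 1) (update s v (some c))) → Win F k τ n s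

/-- The game number: the largest palette with which Alice wins. -/
noncomputable def gam (F : Set V → Prop) (τ : ℕ → Bool) : ℕ :=
  sSup {k | 1 ≤ k ∧ Win F k τ 0 fun _ => none}

/-- Alternating turns in blocks: `a` turns of Alice, then `b` turns of Bob, and so on. -/
def aliceFirst (a b : ℕ) : ℕ → Bool := fun n => decide (n % (a + b) < a)

/-- Alternating turns in blocks: `b` turns of Bob, then `a` turns of Alice, and so on. -/
def bobFirst (a b : ℕ) : ℕ → Bool := fun n => decide (b ≤ n % (a + b))

/-- The dominating sets of a graph. -/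
def Dominating (G : SimpleGraph V) : Set V → Prop := fun S => ∀ v, v ∈ S ∨ ∃ w, G.Adj v w ∧ w ∈ S

lemma bound [Fintype V] {F : Set V → Prop} (h0 : ¬ F ∅) {τ : ℕ → Bool} {k : ℕ} (hk : 1 ≤ k) {n : ℕ}
    {s : V → Option (Fin k)} (h : Win F k τ n s) : k ≤ Fintype.card V := by
  induction h with
  | done n s _ h =>
    have : ∀ c, ∃ v, s v = some c := fun c => by
      by_contra hn
      push Not at hn
      apply h0
      have : {v | s v = some c} = ∅ := Set.eq_empty_of_forall_notMem hn
      rw [← this]
      exact h c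
    choose f hf using this
    simpa using Fintype.card_le_of_injective f fun a b e =>
      Option.some_injective _ (by rw [← hf, e, hf])
  | alice n s v c _ _ _ ih => exact ih
  | bob n s _ h _ ih => obtain ⟨v, hv⟩ := h; exact ih v ⟨0, hk⟩ hv

lemma ghost {F : Set V → Prop} (hF : ∀ S T, S ⊆ T → F S → F T) {τ : ℕ → Bool} {k : ℕ}
    (c₀ : Fin (k + 2)) {n : ℕ} {s : V → Option (Fin (k + 2))} (h : Win F (k + 2) τ n s) :
    ∀ (m : ℕ), n = m + 1 → ∀ (g : V) (r : V → Option (Fin (k + 1))),
      (∀ v c, s v = some (c₀.succAbove c) → r v = some c) →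
      (∀ v, s v = none → r v = none) → (∀ v, r v = none → s v = none ∨ v = g) →
      Win F (k + 1) (fun n => τ (n + 1)) m r := by
  induction h with
  | done n s h1 h2 =>
    intro m _ g r a1 a2 a3
    have fin : ∀ t r, (∀ v c, s v = some (c₀.succAbove c) → r v = some c) → (∀ v, r v ≠ none) →
        Win F (k + 1) (fun n => τ (n + 1)) t r := fun t r a b => .done t r b fun c =>
      hF _ _ (fun v hv => a v c hv) (h2 (c₀.succAbove c))
    by_cases hg : r g = none
    · by_cases ht : τ (m + 1) = true
      · exact .alice m r g 0 ht hg (fin _ _ (by grind) (by grind))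
      · exact .bob m r (by simpa using ht) ⟨g, hg⟩ fun v c hv => fin _ _ (by grind) (by grind)
    · exact fin _ _ a1 (by grind)
  | alice n s v c h0 h1 _ ih =>
    intro m hm g r a1 a2 a3
    subst hm
    obtain ⟨d, hd⟩ : ∃ d, ∀ d', c = c₀.succAbove d' → d = d' := by
      by_cases h : ∃ d, c = c₀.succAbove d
      · obtain ⟨d, rfl⟩ := h
        exact ⟨d, fun d' e => Fin.succAbove_right_injective e⟩
      · exact ⟨0, fun d' e => absurd ⟨d', e⟩ h⟩
    exact .alice m r v d h0 (a2 v h1) (ih (m + 1) rfl g _ (by grind) (by grind) (by grind))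
  | bob n s h0 h1 _ ih =>
    intro m hm g r a1 a2 a3
    subst hm
    obtain ⟨x, hx⟩ := h1
    have n := c₀.succAbove_ne
    refine .bob m r h0 ⟨x, a2 x hx⟩ fun v c hv => ?_
    by_cases hs : s v = none
    · exact ih v c₀ hs (m + 1) rfl g _ (by grind) (by grind) (by grind)
    · exact ih x c₀ hx (m + 1) rfl x _ (by grind) (by grind) (by grind)

lemma swap {F : Set V → Prop} (hF : ∀ S T, S ⊆ T → F S → F T) (hF0 : ¬ F ∅) {τ : ℕ → Bool} {k : ℕ}
    (h : Win F (k + 2) τ 0 fun _ => none) :
    Win F (k + 1) (fun n => τ (n + 1)) 0 fun _ => none := by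
  generalize hs : (fun _ => none : V → Option (Fin (k + 2))) = s at h
  cases h with
  | done n s h h' =>
    exfalso
    apply hF0
    have : {v | s v = some 0} = ∅ := by
      apply Set.eq_empty_of_forall_notMem
      intro v
      rw [← hs]
      simp
    rw [← this]
    exact h' 0
  | alice n s v c _ _ h =>
    have n := c.succAbove_ne
    exact ghost hF c h 0 rfl v _ (by grind) (by grind) (by grind)
  | bob n s _ h1 h =>
    obtain ⟨v, hv⟩ := h1
    have n := (0 : Fin (k + 2)).succAbove_ne
    exact ghost hF 0 (h v 0 hv) 0 rfl v _ (by grind) (by grind) (by grind)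

lemma step [Fintype V] {F : Set V → Prop} (hF : ∀ S T, S ⊆ T → F S → F T) (hF0 : ¬ F ∅)
    (τ : ℕ → Bool) : gam F τ ≤ gam F (fun n => τ (n + 1)) + 1 := by
  refine csSup_le' ?_
  rintro (_ | _ | k) ⟨h1, h2⟩
  · omega
  · omega
  · exact Nat.succ_le_succ (le_csSup ⟨_, fun j h => bound hF0 h.1 h.2⟩ ⟨by omega, swap hF hF0 h2⟩)

lemma steps [Fintype V] {F : Set V → Prop} (hF : ∀ S T, S ⊆ T → F S → F T) (hF0 : ¬ F ∅)
    (τ : ℕ → Bool) (j : ℕ) : gam F τ ≤ gam F (fun n => τ (n + j)) + j := by
  induction j with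
  | zero => exact le_rfl
  | succ j ih =>
    have h := step hF hF0 (fun n => τ (n + j))
    have e : (fun n => τ (n + 1 + j)) = fun n => τ (n + (j + 1)) := by
      funext n
      congr 1
      ring
    simp only [e] at h
    omega

lemma shiftA (a b : ℕ) (hab : 0 < a + b) : (fun n => aliceFirst a b (n + a)) = bobFirst a b := by
  funext n
  unfold aliceFirst bobFirst
  rw [decide_eq_decide]
  have h1 := Nat.mod_lt n hab
  have h2 : (n + a) % (a + b) = (n % (a + b) + a) % (a + b) := by
    rw [Nat.mod_add_mod]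
  rw [h2]
  by_cases h : b ≤ n % (a + b)
  · have : n % (a + b) + a = (n % (a + b) - b) + (a + b) := by omega
    rw [this, Nat.add_mod_right, Nat.mod_eq_of_lt (by omega)]
    omega
  · rw [Nat.mod_eq_of_lt (by omega)]
    omega

lemma shiftB (a b : ℕ) (hab : 0 < a + b) : (fun n => bobFirst a b (n + b)) = aliceFirst a b := by
  funext n
  unfold aliceFirst bobFirst
  rw [decide_eq_decide]
  have h1 := Nat.mod_lt n hab
  have h2 : (n + b) % (a + b) = (n % (a + b) + b) % (a + b) := by
    rw [Nat.mod_add_mod]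
  rw [h2]
  by_cases h : n % (a + b) < a
  · rw [Nat.mod_eq_of_lt (by omega)]
    omega
  · have : n % (a + b) + b = (n % (a + b) - a) + (a + b) := by omega
    rw [this, Nat.add_mod_right, Nat.mod_eq_of_lt (by omega)]
    omega

theorem result (V : Type*) [DecidableEq V] [Fintype V] :
    -- every monotone goal, every turn order
    (∀ F : Set V → Prop, (∀ S T, S ⊆ T → F S → F T) → ¬ F ∅ →
      (∀ (τ : ℕ → Bool) (j : ℕ), gam F τ ≤ gam F (fun n => τ (n + j)) + j) ∧
      (∀ a b : ℕ, 0 < a + b → gam F (aliceFirst a b) ≤ gam F (bobFirst a b) + a ∧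
        gam F (bobFirst a b) ≤ gam F (aliceFirst a b) + b)) ∧
    -- the domatic game
    (Nonempty V → ∀ G : SimpleGraph V,
      |(gam (Dominating G) (aliceFirst 1 1) : ℤ) - gam (Dominating G) (bobFirst 1 1)| ≤ 1) := by
  have key : ∀ F : Set V → Prop, (∀ S T, S ⊆ T → F S → F T) → ¬ F ∅ →
      (∀ (τ : ℕ → Bool) (j : ℕ), gam F τ ≤ gam F (fun n => τ (n + j)) + j) ∧
      (∀ a b : ℕ, 0 < a + b → gam F (aliceFirst a b) ≤ gam F (bobFirst a b) + a ∧
        gam F (bobFirst a b) ≤ gam F (aliceFirst a b) + b) := by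
    intro F hF h0
    refine ⟨fun τ j => steps hF h0 τ j, fun a b hab => ⟨?_, ?_⟩⟩
    · have := steps hF h0 (aliceFirst a b) a
      rwa [shiftA a b hab] at this
    · have := steps hF h0 (bobFirst a b) b
      rwa [shiftB a b hab] at this
  refine ⟨key, fun hV G => ?_⟩
  obtain ⟨-, h⟩ := key (Dominating G) (fun S T hST h v => (h v).imp (fun x => hST x)
    (fun ⟨w, h1, h2⟩ => ⟨w, h1, hST h2⟩)) (fun h => by
      rcases h (Classical.arbitrary V) with h | ⟨w, -, h⟩ <;> exact h)
  obtain ⟨h1, h2⟩ := h 1 1 (by norm_num)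
  rw [abs_le]
  omega

end Pool.Agent.Results.MP_d2c770_co.TurnOrders
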